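import Pool.Agent.Helper53.AE.GoalsC

/-!
# Project AE (MP_8130e1_an), packet XAF: the finite-dimensional algebra under `Q`
-/

set_option autoImplicit false

open scoped ComplexOrder Topology
open Filter TopologicalSpace

namespace Pool.Agent.Helper70.AE

open Pool.Agent.Helper53.AE

theorem pj_norm {M : Type} [CStarAlgebra M] {p : M} (h : Pj p) : ‖p‖ ≤ 1 := by
  have h1 : ‖star p * p‖ = ‖p‖ * ‖p‖ := CStarRing.norm_star_mul_self
  rw [h.1, h.2] at h1
  by_contra hc
  push Not at hc
  nlinarith

theorem iso_norm {M : Type} [CStarAlgebra M] {u p : M} (h : Pj p) (hu : star u * u = p) :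
    ‖u‖ ≤ 1 := by
  have h1 : ‖star u * u‖ = ‖u‖ * ‖u‖ := CStarRing.norm_star_mul_self
  rw [hu] at h1
  have h2 := pj_norm h
  by_contra hc
  push Not at hc
  nlinarith

/-- the data. -/
structure Dat {M : Type} [CStarAlgebra M] {m : ℕ} (b : Fin m → Fin m) (u q : Fin m → M)
    (r : Fin m → M) (Q : M) : Prop where
  rp : ∀ x, Pj (r x)
  uu : ∀ x, star (u x) * u x = r x
  uo : ∀ x y, x ≠ y → star (u x) * u y = 0
  rq : ∀ x, r x * q (b x) = q (b x)
  qp : ∀ x, Pj (q (b x))
  hQ : Q = ∑ x, u x * q (b x) * star (u x)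

namespace Dat

variable {M : Type} [CStarAlgebra M] {m : ℕ} {b : Fin m → Fin m} {u q : Fin m → M}
    {r : Fin m → M} {Q : M}

theorem qr (h : Dat b u q r Q) (x : Fin m) : q (b x) * r x = q (b x) := by
  have h1 := congrArg star (h.rq x)
  rw [star_mul, (h.qp x).1, (h.rp x).1] at h1
  exact h1

/-- `v x Q = q (b x) v x` -/
theorem vQ (h : Dat b u q r Q) (x : Fin m) : star (u x) * Q = q (b x) * star (u x) := by
  rw [h.hQ, Finset.mul_sum, Finset.sum_eq_single x]
  · rw [← mul_assoc, ← mul_assoc, h.uu, h.rq]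
  · intro y _ hy
    rw [← mul_assoc, ← mul_assoc, h.uo x y (fun e => hy e.symm), zero_mul, zero_mul]
  · intro hx
    exact absurd (Finset.mem_univ _) hx

theorem star_Q (h : Dat b u q r Q) : star Q = Q := by
  rw [h.hQ, star_sum]
  refine Finset.sum_congr rfl fun x _ => ?_
  rw [star_mul, star_mul, star_star, (h.qp x).1, mul_assoc]

/-- `Q u x = u x q (b x)` -/
theorem Qu (h : Dat b u q r Q) (x : Fin m) : Q * u x = u x * q (b x) := by
  have h1 := congrArg star (h.vQ x)
  rw [star_mul, star_mul, star_star, (h.qp x).1, h.star_Q] at h1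
  exact h1

theorem QQ (h : Dat b u q r Q) : Q * Q = Q := by
  conv_lhs => rhs; rw [h.hQ]
  conv_rhs => rw [h.hQ]
  rw [Finset.mul_sum]
  refine Finset.sum_congr rfl fun x _ => ?_
  rw [← mul_assoc, ← mul_assoc, h.Qu, mul_assoc (u x), (h.qp x).2]

/-- `Q f Q` in terms of the entries. -/
theorem QfQ (h : Dat b u q r Q) (f : M) :
    Q * f * Q = ∑ x, ∑ y, u x * (q (b x) * (star (u x) * f * u y) * q (b y)) * star (u y) := by
  conv_lhs => rw [h.hQ]
  rw [Finset.sum_mul, Finset.sum_mul]
  refine Finset.sum_congr rfl fun x _ => ?_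
  rw [Finset.mul_sum]
  refine Finset.sum_congr rfl fun y _ => ?_
  simp only [mul_assoc]

/-- the algebra. -/
def alg (h : Dat b u q r Q) (F' : NonUnitalStarSubalgebra ℂ M) (hq : ∀ x, q (b x) ∈ F') :
    NonUnitalStarSubalgebra ℂ M where
  carrier := {f | Q * f = f ∧ f * Q = f ∧ ∀ x y, star (u x) * f * u y ∈ F'}
  add_mem' := by
    rintro f g ⟨h1, h2, h3⟩ ⟨k1, k2, k3⟩
    refine ⟨by rw [mul_add, h1, k1], by rw [add_mul, h2, k2], fun x y => ?_⟩
    rw [mul_add, add_mul]
    exact add_mem (h3 x y) (k3 x y)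
  zero_mem' := by
    refine ⟨by rw [mul_zero], by rw [zero_mul], fun x y => ?_⟩
    rw [mul_zero, zero_mul]
    exact zero_mem _
  mul_mem' := by
    rintro f g ⟨h1, h2, h3⟩ ⟨k1, k2, k3⟩
    refine ⟨by rw [← mul_assoc, h1], by rw [mul_assoc, k2], fun x y => ?_⟩
    have e1 : star (u x) * (f * g) * u y
        = ∑ z, (star (u x) * f * u z) * q (b z) * (star (u z) * g * u y) := by
      have e2 : f * g = f * Q * g := by rw [h2]
      rw [e2, h.hQ, Finset.mul_sum, Finset.sum_mul, Finset.mul_sum, Finset.sum_mul]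
      refine Finset.sum_congr rfl fun z _ => ?_
      simp only [mul_assoc]
    rw [e1]
    exact sum_mem fun z _ => mul_mem (mul_mem (h3 x z) (hq z)) (k3 z y)
  smul_mem' := by
    rintro c f ⟨h1, h2, h3⟩
    refine ⟨by rw [mul_smul_comm, h1], by rw [smul_mul_assoc, h2], fun x y => ?_⟩
    rw [mul_smul_comm, smul_mul_assoc]
    exact SMulMemClass.smul_mem c (h3 x y)
  star_mem' := by
    rintro f ⟨h1, h2, h3⟩
    refine ⟨?_, ?_, fun x y => ?_⟩
    · have := congrArg star h2
      rwa [star_mul, h.star_Q] at this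
    · have := congrArg star h1
      rwa [star_mul, h.star_Q] at this
    · have h4 := star_mem (h3 y x)
      rw [star_mul, star_mul, star_star, ← mul_assoc] at h4
      exact h4

theorem mem_alg (h : Dat b u q r Q) {F' : NonUnitalStarSubalgebra ℂ M}
    (hq : ∀ x, q (b x) ∈ F') {f : M} :
    f ∈ h.alg F' hq ↔ Q * f = f ∧ f * Q = f ∧ ∀ x y, star (u x) * f * u y ∈ F' := Iff.rfl

/-- the entries as a linear map. -/
def ent (h : Dat b u q r Q) (F' : NonUnitalStarSubalgebra ℂ M) (hq : ∀ x, q (b x) ∈ F') :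
    h.alg F' hq →ₗ[ℂ] (Fin m → Fin m → F') where
  toFun f := fun x y => ⟨star (u x) * (f : M) * u y, f.2.2.2 x y⟩
  map_add' f g := by
    funext x y
    apply Subtype.ext
    change star (u x) * ((f : M) + (g : M)) * u y = star (u x) * (f : M) * u y
      + star (u x) * (g : M) * u y
    rw [mul_add, add_mul]
  map_smul' c f := by
    funext x y
    apply Subtype.ext
    change star (u x) * (c • (f : M)) * u y = c • (star (u x) * (f : M) * u y)
    rw [mul_smul_comm, smul_mul_assoc]

theorem fin (h : Dat b u q r Q) (F' : NonUnitalStarSubalgebra ℂ M) (hq : ∀ x, q (b x) ∈ F')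
    (hF : FiniteDimensional ℂ F') : FiniteDimensional ℂ (h.alg F' hq) := by
  refine FiniteDimensional.of_injective (h.ent F' hq) ?_
  rw [← LinearMap.ker_eq_bot, LinearMap.ker_eq_bot']
  intro f hf
  apply Subtype.ext
  change (f : M) = 0
  have h1 : ∀ x y, star (u x) * (f : M) * u y = 0 := by
    intro x y
    have := congrFun (congrFun hf x) y
    exact congrArg Subtype.val this
  have h2 : (f : M) = Q * (f : M) * Q := by
    rw [f.2.1, f.2.2.1]
  rw [h2, h.QfQ]
  refine Finset.sum_eq_zero fun x _ => Finset.sum_eq_zero fun y _ => ?_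
  rw [h1, mul_zero, zero_mul, mul_zero, zero_mul]

theorem Q_mem (h : Dat b u q r Q) (F' : NonUnitalStarSubalgebra ℂ M) (hq : ∀ x, q (b x) ∈ F') :
    Q ∈ h.alg F' hq := by
  refine ⟨h.QQ, h.QQ, fun x y => ?_⟩
  rw [h.vQ]
  by_cases hxy : x = y
  · subst hxy
    rw [mul_assoc, h.uu, h.qr]
    exact hq x
  · rw [mul_assoc, h.uo x y hxy, mul_zero]
    exact zero_mem _

/-- elements with given entries -/
theorem mk_mem (h : Dat b u q r Q) (F' : NonUnitalStarSubalgebra ℂ M) (hq : ∀ x, q (b x) ∈ F')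
    (a : Fin m → Fin m → M) (ha : ∀ x y, a x y ∈ F') :
    (∑ x, ∑ y, u x * (q (b x) * a x y * q (b y)) * star (u y)) ∈ h.alg F' hq := by
  have hsum : ∀ x y, u x * (q (b x) * a x y * q (b y)) * star (u y) ∈ h.alg F' hq := by
    intro x y
    refine ⟨?_, ?_, fun z w => ?_⟩
    · have e1 : Q * (u x * (q (b x) * a x y * q (b y)) * star (u y))
          = (Q * u x) * (q (b x) * a x y * q (b y)) * star (u y) := by
        simp only [mul_assoc]
      rw [e1, h.Qu]
      have e2 : u x * q (b x) * (q (b x) * a x y * q (b y)) * star (u y)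
          = u x * ((q (b x) * q (b x)) * a x y * q (b y)) * star (u y) := by
        simp only [mul_assoc]
      rw [e2, (h.qp x).2]
    · have e1 : u x * (q (b x) * a x y * q (b y)) * star (u y) * Q
          = u x * (q (b x) * a x y * q (b y)) * (star (u y) * Q) := by
        simp only [mul_assoc]
      rw [e1, h.vQ]
      have e2 : u x * (q (b x) * a x y * q (b y)) * (q (b y) * star (u y))
          = u x * (q (b x) * a x y * (q (b y) * q (b y))) * star (u y) := by
        simp only [mul_assoc]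
      rw [e2, (h.qp y).2]
    · have e1 : star (u z) * (u x * (q (b x) * a x y * q (b y)) * star (u y)) * u w
          = (star (u z) * u x) * q (b x) * a x y * (q (b y) * (star (u y) * u w)) := by
        simp only [mul_assoc]
      rw [e1]
      by_cases hz : z = x
      · by_cases hw : y = w
        · subst hz hw
          rw [h.uu, h.uu, h.rq, h.qr]
          exact mul_mem (mul_mem (hq _) (ha _ _)) (hq _)
        · rw [h.uo y w hw, mul_zero, mul_zero]
          exact zero_mem _
      · rw [h.uo z x hz, zero_mul, zero_mul, zero_mul]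
        exact zero_mem _
  exact sum_mem fun x _ => sum_mem fun y _ => hsum x y

/-- approximation -/
theorem approx (h : Dat b u q r Q) (a c : Fin m → Fin m → M) (η : ℝ)
    (hη : ∀ x y, ‖a x y - c x y‖ ≤ η) :
    ‖(∑ x, ∑ y, u x * (q (b x) * a x y * q (b y)) * star (u y))
      - ∑ x, ∑ y, u x * (q (b x) * c x y * q (b y)) * star (u y)‖ ≤ (m : ℝ) ^ 2 * η := by
  have e1 : (∑ x, ∑ y, u x * (q (b x) * a x y * q (b y)) * star (u y))
      - ∑ x, ∑ y, u x * (q (b x) * c x y * q (b y)) * star (u y)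
      = ∑ x, ∑ y, u x * (q (b x) * (a x y - c x y) * q (b y)) * star (u y) := by
    rw [← Finset.sum_sub_distrib]
    refine Finset.sum_congr rfl fun x _ => ?_
    rw [← Finset.sum_sub_distrib]
    refine Finset.sum_congr rfl fun y _ => ?_
    rw [mul_sub, sub_mul, mul_sub, sub_mul]
  have hu : ∀ x, ‖u x‖ ≤ 1 := fun x => iso_norm (h.rp x) (h.uu x)
  have hq : ∀ x, ‖q (b x)‖ ≤ 1 := fun x => pj_norm (h.qp x)
  have h1 : ∀ x y, ‖u x * (q (b x) * (a x y - c x y) * q (b y)) * star (u y)‖ ≤ η := by
    intro x y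
    have hη0 : 0 ≤ η := le_trans (norm_nonneg _) (hη x y)
    have h2 : ‖q (b x) * (a x y - c x y)‖ ≤ η := by
      refine (norm_mul_le _ _).trans ?_
      calc ‖q (b x)‖ * ‖a x y - c x y‖ ≤ 1 * η :=
            mul_le_mul (hq x) (hη x y) (norm_nonneg _) zero_le_one
        _ = η := one_mul η
    have h3 : ‖q (b x) * (a x y - c x y) * q (b y)‖ ≤ η := by
      refine (norm_mul_le _ _).trans ?_
      calc ‖q (b x) * (a x y - c x y)‖ * ‖q (b y)‖ ≤ η * 1 :=
            mul_le_mul h2 (hq y) (norm_nonneg _) hη0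
        _ = η := mul_one η
    have h4 : ‖u x * (q (b x) * (a x y - c x y) * q (b y))‖ ≤ η := by
      refine (norm_mul_le _ _).trans ?_
      calc ‖u x‖ * ‖q (b x) * (a x y - c x y) * q (b y)‖ ≤ 1 * η :=
            mul_le_mul (hu x) h3 (norm_nonneg _) zero_le_one
        _ = η := one_mul η
    refine (norm_mul_le _ _).trans ?_
    rw [norm_star]
    calc ‖u x * (q (b x) * (a x y - c x y) * q (b y))‖ * ‖u y‖ ≤ η * 1 :=
          mul_le_mul h4 (hu y) (norm_nonneg _) hη0
      _ = η := mul_one η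
  rw [e1]
  calc ‖∑ x, ∑ y, u x * (q (b x) * (a x y - c x y) * q (b y)) * star (u y)‖
      ≤ ∑ x : Fin m, ∑ y : Fin m, η :=
        norm_sum_le_of_le _ fun x _ => norm_sum_le_of_le _ fun y _ => h1 x y
    _ = (m : ℝ) ^ 2 * η := by
        simp
        ring

end Dat

theorem t (hPRX : S_PRX) : S_XAF := by
  classical
  intro C M _ _ D hD hL σ m b e he q hq Q hQ S ε hS hε
  have hst : ∀ x y, star (σ (e x y)) = σ (e y x) := by
    intro x y
    rw [← map_star, he.star]
  have hrr : ∀ x, Pj (σ (e (b x) (b x))) := by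
    intro x
    refine ⟨hst _ _, ?_⟩
    rw [← map_mul, he.mul (b x) (b x) (b x) rfl rfl]
  have hv : ∀ x, star (σ (e x (b x))) = σ (e (b x) x) := fun x => hst _ _
  have hdat : Dat b (fun x => σ (e x (b x))) q (fun x => σ (e (b x) (b x))) Q := by
    refine ⟨hrr, ?_, ?_, ?_, ?_, ?_⟩
    · intro x
      rw [hv, ← map_mul, he.mul (b x) x (b x) (he.root x) (he.root x).symm]
    · intro x y hxy
      rw [hv, ← map_mul, he.orth _ _ _ _ hxy, map_zero]
    · intro x
      exact (hq (b x) (he.root x)).2.2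
    · intro x
      exact (hq (b x) (he.root x)).2.1
    · rw [hQ]
      refine Finset.sum_congr rfl fun x _ => ?_
      rw [hv]
  -- the projections
  set g : Fin m → M := fun x => if b x = x then q x else 0 with hg
  have hg1 : ∀ i, g i ∈ D ∧ Pj (g i) := by
    intro i
    by_cases h : b i = i
    · simp only [hg, if_pos h]
      exact ⟨(hq i h).1, (hq i h).2.1⟩
    · simp only [hg, if_neg h]
      exact ⟨zero_mem _, star_zero _, mul_zero _⟩
  have hg2 : ∀ i j, i ≠ j → g i * g j = 0 := by
    intro i j hij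
    by_cases h : b i = i
    · by_cases h' : b j = j
      · simp only [hg, if_pos h, if_pos h']
        have k1 := (hq i h).2.2
        have k2 := (hq j h').2.2
        have k3 := congrArg star k1
        rw [star_mul, (hq i h).2.1.1, hst] at k3
        rw [← k3, ← k2, mul_assoc, ← mul_assoc (σ (e i i)), ← map_mul, he.orth _ _ _ _ hij,
          map_zero, zero_mul, mul_zero]
      · simp only [hg, if_neg h', mul_zero]
    · simp only [hg, if_neg h, zero_mul]
  -- the finite set
  set S' : Finset M := S.biUnion fun d => (Finset.univ : Finset (Fin m × Fin m)).image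
    fun p => star (σ (e p.1 (b p.1))) * d * σ (e p.2 (b p.2)) with hS'
  have hS'D : ∀ x ∈ S', x ∈ D := by
    intro x hx
    rw [hS', Finset.mem_biUnion] at hx
    obtain ⟨d, hd, hx⟩ := hx
    rw [Finset.mem_image] at hx
    obtain ⟨p, -, rfl⟩ := hx
    exact (hD.2 _ _ (hD.2 _ _ (hS d hd)).1).2
  have hε' : 0 < ε / ((m : ℝ) ^ 2 + 1) := by positivity
  obtain ⟨F', hF1, hF2, hF3, hF4⟩ := hPRX M D hD hL m g hg1 hg2 S' _ hS'D hε'
  have hqF : ∀ x, q (b x) ∈ F' := by
    intro x
    have h1 := hF3 (b x)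
    simp only [hg, if_pos (he.root x)] at h1
    exact h1
  have hQD : Q ∈ D := by
    rw [hQ]
    exact sum_mem fun x _ => (hD.2 _ _ (hD.2 _ _ (hq (b x) (he.root x)).1).1).2
  refine ⟨hdat.alg F' hqF, hdat.fin F' hqF hF1, ?_, hdat.Q_mem F' hqF, ⟨hdat.star_Q, hdat.QQ⟩,
    fun f hf => ⟨hf.1, hf.2.1⟩, ?_, ?_⟩
  · intro f hf
    have h1 : f = Q * f := hf.1.symm
    rw [h1]
    exact (hD.2 _ _ hQD).2
  · intro x y
    have hb : b x = b y ∨ b x ≠ b y := em _
    rcases hb with hb | hb
    · have e1 : σ (e x y) * Q = σ (e x (b x)) * q (b x) * σ (e (b y) y) := by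
        rw [hQ, Finset.mul_sum, Finset.sum_eq_single y]
        · rw [← mul_assoc, ← mul_assoc, ← map_mul, he.mul x y (b y) hb (he.root y).symm, hb]
        · intro z _ hz
          rw [← mul_assoc, ← mul_assoc, ← map_mul, he.orth _ _ _ _ (fun h => hz h.symm),
            map_zero, zero_mul, zero_mul]
        · intro hx
          exact absurd (Finset.mem_univ _) hx
      have e2 : Q * σ (e x y) = σ (e x (b x)) * q (b x) * σ (e (b y) y) := by
        rw [hQ, Finset.sum_mul, Finset.sum_eq_single x]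
        · rw [mul_assoc _ (σ (e (b x) x)), ← map_mul, he.mul (b x) x y (he.root x) hb, hb]
        · intro z _ hz
          rw [mul_assoc _ (σ (e (b z) z)), ← map_mul, he.orth _ _ _ _ hz, map_zero, mul_zero]
        · intro hx
          exact absurd (Finset.mem_univ _) hx
      refine ⟨e1.trans e2.symm, ?_, ?_, fun z w => ?_⟩
      · rw [e1, ← e2, ← mul_assoc, hdat.QQ]
      · rw [mul_assoc, hdat.QQ]
      · change star (σ (e z (b z))) * (σ (e x y) * Q) * σ (e w (b w)) ∈ F'
        rw [e1]
        have e3 : star (σ (e z (b z))) * (σ (e x (b x)) * q (b x) * σ (e (b y) y))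
            * σ (e w (b w)) = (star (σ (e z (b z))) * σ (e x (b x))) * q (b x)
              * (star (σ (e y (b y))) * σ (e w (b w))) := by
          rw [hv y]
          simp only [mul_assoc]
        rw [e3]
        by_cases hz : z = x
        · by_cases hw : y = w
          · subst hz hw
            have k1 := hdat.uu z
            have k2 := hdat.uu y
            have k3 := hdat.rq z
            have k4 := hdat.qr y
            rw [k1, k2, k3, hb, k4]
            exact hqF y
          · have k1 := hdat.uo y w hw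
            rw [k1, mul_zero]
            exact zero_mem _
        · have k1 := hdat.uo z x hz
          rw [k1, zero_mul, zero_mul]
          exact zero_mem _
    · rw [he.zero x y hb, map_zero, zero_mul, mul_zero]
      exact ⟨rfl, zero_mem _⟩
  · intro d hd
    have h1 : ∀ x y, ∃ c ∈ F', ‖star (σ (e x (b x))) * d * σ (e y (b y)) - c‖
        < ε / ((m : ℝ) ^ 2 + 1) := by
      intro x y
      refine hF4 _ ?_
      rw [hS', Finset.mem_biUnion]
      refine ⟨d, hd, ?_⟩
      rw [Finset.mem_image]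
      exact ⟨(x, y), Finset.mem_univ _, rfl⟩
    choose c hc1 hc2 using h1
    refine ⟨_, hdat.mk_mem F' hqF c hc1, ?_⟩
    rw [hdat.QfQ]
    refine lt_of_le_of_lt (hdat.approx _ c (ε / ((m : ℝ) ^ 2 + 1)) fun x y => (hc2 x y).le) ?_
    have hm : (0 : ℝ) < (m : ℝ) ^ 2 + 1 := by positivity
    rw [mul_div_assoc', div_lt_iff₀ hm]
    nlinarith

end Pool.Agent.Helper70.AE
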